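import Pool.Agent.U581.BM.DonskerH

set_option autoImplicit false

/-!
# The invariance principle for the momentum of the standard map

`F_a(x, y) = (2x - y + a sin 2πx, x)` is the lift of `S_a` to the plane, `x_k` is the first coordinate
of `F_a^k (x, y)` and the momentum `p_k` is the difference of the two coordinates of `F_a^k (x, y)`.
Fix `y` and choose `x` at random in `(0, 1]`; no parameter `a` with `|a| ≥ 1` is excluded.

1. For observables `f_k` of the position which may depend on the time `k`, the characteristic function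
   of `n^(-1/2) ∑_{k<n} f_k(x_k)`, also jointly with the final position `x_n`, with a rate.
2. A maximal inequality with the fourth power of the level, for the same sums.
3. The invariance principle: the polygonal path of the sums of one observable converges in
   distribution, in the space of continuous functions on `[0, 1]`, to Brownian motion, and it is
   asymptotically independent of the final position, which is equidistributed modulo one; this
   holds whenever `n` tends to infinity and `n (1 + log |a|)² / |a|` to `0`.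
4. The same for the polygonal path of the momentum.
-/

open Real MeasureTheory Filter Topology ProbabilityTheory
open scoped BoundedContinuousFunction NNReal

namespace Pool.Agent.Results.MP_9ee088_an.BrownianMomentum

/-- The lift `(x, y) ↦ (2 x - y + a sin 2 π x, x)` of `S_a` to the plane. -/
noncomputable def planeMap (a : ℝ) (p : ℝ × ℝ) : ℝ × ℝ :=
  (2 * p.1 - p.2 + a * sin (2 * π * p.1), p.1)

/-- The position `x_k`: the first coordinate of the `k`-th point of the orbit of `(x, y)`. -/
noncomputable def position (a : ℝ) (k : ℕ) (x y : ℝ) : ℝ := ((planeMap a)^[k] (x, y)).1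

/-- The momentum `p_k`: the difference of the coordinates of the `k`-th point of the orbit of
`(x, y)`; so `p_0 = x - y`. -/
noncomputable def momentum (a : ℝ) (k : ℕ) (x y : ℝ) : ℝ :=
  ((planeMap a)^[k] (x, y)).1 - ((planeMap a)^[k] (x, y)).2

/-- The error `n^(-1/2) + (n/|a|)^(1/2) (1 + log |a|)`. -/
noncomputable def rate (a : ℝ) (n : ℕ) : ℝ := 1 / √n + √(n / |a|) * (1 + log |a|)

/-- The polygonal path on `[0, 1]` which has the value `c k` at the time `k / n`, `k ≤ n`, and is
linear in between: the term number `k` of the sum is `0` for `t ≤ k / n`, is `c (k + 1) - c k` for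
`t ≥ (k + 1) / n` and is linear on the interval from `k / n` to `(k + 1) / n`. -/
noncomputable def polygon (n : ℕ) (c : ℕ → ℝ) : C(unitInterval, ℝ) where
  toFun t := c 0 + ∑ k ∈ Finset.range n, (c (k + 1) - c k) * max 0 (min 1 (n * (t : ℝ) - k))
  continuous_toFun := by fun_prop

/-- The path of `B` on `[0, 1]` as a continuous function (and `0` if it is not continuous). -/
noncomputable def unitPath {Ω : Type} (B : ℝ≥0 → Ω → ℝ) (ω : Ω) : C(unitInterval, ℝ) :=
  ContinuousMap.mkD (fun t : unitInterval => B ⟨(t : ℝ), t.2.1⟩ ω) 0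

theorem iter_eq (a : ℝ) (k : ℕ) (x y : ℝ) :
    (planeMap a)^[k] (x, y) = (TH705.SM.X a y (k + 1) x, TH705.SM.X a y k x) :=
  TH705.SM.iter_plane a y x k

theorem position_eq (a : ℝ) (k : ℕ) (x y : ℝ) : position a k x y = TH705.SM.X a y (k + 1) x := by
  unfold position
  rw [iter_eq]

theorem momentum_eq (a : ℝ) (n : ℕ) (x y : ℝ) : momentum a n x y - momentum a 0 x y =
    a * ∑ k ∈ Finset.range n, sin (2 * π * TH705.SM.X a y (k + 1) x) := by
  have h := TH705.SM.momentum a y x n
  unfold momentum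
  rw [iter_eq, iter_eq]
  rw [← h]
  rfl

theorem polygon_eq (n : ℕ) (c : ℕ → ℝ) : polygon n c = U581.BM.polygon n c := by
  ext t
  rw [U581.BM.polygon_apply]
  rfl

/-- **The invariance principle for the standard map, for every large parameter.** -/
theorem result :
    -- (1) time-dependent observables, jointly with the final position, with a rate
    (∀ M : ℝ, 0 ≤ M → ∃ C : ℝ, 0 < C ∧ ∀ f f' : ℕ → ℝ → ℝ,
      (∀ k x, HasDerivAt (f k) (f' k x) x) → (∀ k, Continuous (f' k)) →
      (∀ k, Function.Periodic (f k) 1) → (∀ k x, |f k x| ≤ M) → (∀ k x, |f' k x| ≤ M) →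
      (∀ k, ∫ x in (0:ℝ)..1, f k x = 0) →
      ∀ h : ℝ → ℝ, Continuous h → Function.Periodic h 1 → (∀ x, |h x| ≤ 1) →
      ∀ a : ℝ, 1 ≤ |a| → ∀ n : ℕ, 1 ≤ n → ∀ y τ : ℝ,
      ‖(∫ x in (0:ℝ)..1, Complex.exp (((τ *
          ((∑ k ∈ Finset.range n, f k (position a k x y)) / √n) : ℝ) : ℂ) * Complex.I) *
          (h (position a n x y) : ℂ)) -
        ((exp (-(τ ^ 2 * ((∑ k ∈ Finset.range n, ∫ x in (0:ℝ)..1, f k x ^ 2) / n) / 2)) : ℝ) : ℂ) *
          ((∫ x in (0:ℝ)..1, h x : ℝ) : ℂ)‖ ≤ C * (1 + |τ|) ^ 4 * rate a n) ∧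
    -- (2) the maximal inequality
    (∀ M : ℝ, 0 ≤ M → ∃ C : ℝ, 0 < C ∧ ∀ f f' : ℕ → ℝ → ℝ,
      (∀ k x, HasDerivAt (f k) (f' k x) x) → (∀ k, Continuous (f' k)) →
      (∀ k, Function.Periodic (f k) 1) → (∀ k x, |f k x| ≤ M) → (∀ k x, |f' k x| ≤ M) →
      (∀ k, ∫ x in (0:ℝ)..1, f k x = 0) →
      ∀ a : ℝ, 1 ≤ |a| → ∀ n : ℕ, 1 ≤ n → ∀ y lam : ℝ, 0 < lam →
      volume.real {x : ℝ | x ∈ Set.Ioc (0:ℝ) 1 ∧
        ∃ m ≤ n, lam * √n ≤ |∑ k ∈ Finset.range m, f k (position a k x y)|} ≤
      24 * ((∑ k ∈ Finset.range n, ∫ x in (0:ℝ)..1, f k x ^ 2) / n) ^ 2 / lam ^ 4 +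
        C * (1 + 1 / lam) ^ 4 * rate a n) ∧
    -- (3) the invariance principle for observables of the position
    (∀ f f' : ℝ → ℝ, (∀ x, HasDerivAt f (f' x) x) → Continuous f' → Function.Periodic f 1 →
      ∫ x in (0:ℝ)..1, f x = 0 → ∀ v : ℝ, 0 < v → ∫ x in (0:ℝ)..1, f x ^ 2 = v →
      ∀ (a : ℕ → ℝ) (n : ℕ → ℕ), (∀ j, 1 ≤ |a j|) → (∀ j, 1 ≤ n j) →
      Tendsto (fun j => rate (a j) (n j)) atTop (𝓝 0) → ∀ y : ℕ → ℝ,
      ∀ h : ℝ → ℝ, Continuous h → Function.Periodic h 1 → ∀ F : C(unitInterval, ℝ) →ᵇ ℝ,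
      ∀ (Ω : Type) (_ : MeasurableSpace Ω) (P : Measure Ω) (B : ℝ≥0 → Ω → ℝ),
      IsBrownianReal B P →
      Tendsto (fun j => ∫ x in (0:ℝ)..1, F (polygon (n j) fun m =>
        (∑ k ∈ Finset.range m, f (position (a j) k x (y j))) / √(v * n j)) *
        h (position (a j) (n j) x (y j))) atTop
        (𝓝 ((∫ ω, F (unitPath B ω) ∂P) * ∫ x in (0:ℝ)..1, h x))) ∧
    -- (4) the invariance principle for the momentum
    (∀ (a : ℕ → ℝ) (n : ℕ → ℕ), (∀ j, 1 ≤ |a j|) → (∀ j, 1 ≤ n j) →
      Tendsto (fun j => rate (a j) (n j)) atTop (𝓝 0) → ∀ y : ℕ → ℝ,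
      ∀ h : ℝ → ℝ, Continuous h → Function.Periodic h 1 → ∀ F : C(unitInterval, ℝ) →ᵇ ℝ,
      ∀ (Ω : Type) (_ : MeasurableSpace Ω) (P : Measure Ω) (B : ℝ≥0 → Ω → ℝ),
      IsBrownianReal B P →
      Tendsto (fun j => ∫ x in (0:ℝ)..1, F (polygon (n j) fun m =>
        (momentum (a j) m x (y j) - momentum (a j) 0 x (y j)) / (a j * √(n j / 2))) *
        h (position (a j) (n j) x (y j))) atTop
        (𝓝 ((∫ ω, F (unitPath B ω) ∂P) * ∫ x in (0:ℝ)..1, h x))) := by
  have part3 : ∀ f f' : ℝ → ℝ, (∀ x, HasDerivAt f (f' x) x) → Continuous f' →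
      Function.Periodic f 1 →
      ∫ x in (0:ℝ)..1, f x = 0 → ∀ v : ℝ, 0 < v → ∫ x in (0:ℝ)..1, f x ^ 2 = v →
      ∀ (a : ℕ → ℝ) (n : ℕ → ℕ), (∀ j, 1 ≤ |a j|) → (∀ j, 1 ≤ n j) →
      Tendsto (fun j => rate (a j) (n j)) atTop (𝓝 0) → ∀ y : ℕ → ℝ,
      ∀ h : ℝ → ℝ, Continuous h → Function.Periodic h 1 → ∀ F : C(unitInterval, ℝ) →ᵇ ℝ,
      ∀ (Ω : Type) (_ : MeasurableSpace Ω) (P : Measure Ω) (B : ℝ≥0 → Ω → ℝ),
      IsBrownianReal B P →
      Tendsto (fun j => ∫ x in (0:ℝ)..1, F (polygon (n j) fun m =>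
        (∑ k ∈ Finset.range m, f (position (a j) k x (y j))) / √(v * n j)) *
        h (position (a j) (n j) x (y j))) atTop
        (𝓝 ((∫ ω, F (unitPath B ω) ∂P) * ∫ x in (0:ℝ)..1, h x)) := by
    intro f f' d c p f0 v hv f2 a n ha hn hr y h hc hp F Ω _ P B hB
    have hfc : Continuous f := continuous_iff_continuousAt.2 fun t => (d t).continuousAt
    obtain ⟨M1, h10, h1⟩ := TH705.SM.per_bound hfc p
    obtain ⟨M2, h20, h2⟩ := TH705.SM.per_bound c (TH705.SM.deriv_per d p)
    have O : U581.BM.One f f' (max M1 M2) v :=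
      { d := d
        c := c
        p := p
        le := fun x => (h1 x).trans (le_max_left _ _)
        le' := fun x => (h2 x).trans (le_max_right _ _)
        mean := f0
        pos := hv
        mom := f2 }
    have key := U581.BM.donsker_h (y := y) O ha hn hr hc hp hB F
    refine key.congr fun j => ?_
    apply intervalIntegral.integral_congr
    intro x _
    simp only
    rw [polygon_eq, position_eq]
    simp_rw [position_eq]
    rfl
  refine ⟨?_, ?_, part3, ?_⟩
  · intro M hM
    obtain ⟨C, hC, H⟩ := U581.BM.clt_h hM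
    refine ⟨C, hC, fun f f' d c p h1 h2 f0 h hc hp hh a ha n hn y τ => ?_⟩
    have O : U581.BM.Obs f f' M := ⟨d, c, p, h1, h2, f0⟩
    rcases le_total 0 τ with hτ | hτ
    · have key := H f f' O h hc hp hh a ha n hn y τ hτ
      rw [abs_of_nonneg hτ]
      have e : ∀ x, Complex.exp (((τ * ((∑ k ∈ Finset.range n, f k (position a k x y)) / √n) : ℝ)
          : ℂ) * Complex.I) * (h (position a n x y) : ℂ) =
          TH705.SM.E (τ / √n * U581.BM.Ss a y f n x) * (h (TH705.SM.X a y (n + 1) x) : ℂ) := by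
        intro x
        unfold TH705.SM.E
        rw [U581.BM.Ss_sum, position_eq]
        simp_rw [position_eq]
        congr 4
        ring
      simp_rw [e]
      exact key
    · have key := H _ _ O.neg h hc hp hh a ha n hn y (-τ) (by linarith)
      rw [abs_of_nonpos hτ]
      have e : ∀ x, Complex.exp (((τ * ((∑ k ∈ Finset.range n, f k (position a k x y)) / √n) : ℝ)
          : ℂ) * Complex.I) * (h (position a n x y) : ℂ) =
          TH705.SM.E (-τ / √n * U581.BM.Ss a y (fun k x => -f k x) n x) *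
            (h (TH705.SM.X a y (n + 1) x) : ℂ) := by
        intro x
        unfold TH705.SM.E
        rw [U581.BM.Ss_sum, position_eq, Finset.sum_neg_distrib]
        simp_rw [position_eq]
        congr 4
        ring
      simp_rw [e]
      have e2 : ∀ k, U581.BM.sq (fun x => -f k x) = ∫ x in (0:ℝ)..1, f k x ^ 2 := by
        intro k
        unfold U581.BM.sq
        apply intervalIntegral.integral_congr
        intro x _
        simp only
        ring
      simp_rw [e2, neg_sq] at key
      exact key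
  · intro M hM
    obtain ⟨C, hC, H⟩ := U581.BM.maxi hM
    refine ⟨C, hC, fun f f' d c p h1 h2 f0 a ha n hn y lam hlam => ?_⟩
    have key := H f f' ⟨d, c, p, h1, h2, f0⟩ a ha n hn y lam hlam
    simp_rw [U581.BM.Ss_sum] at key
    simp_rw [position_eq]
    exact key
  · intro a n ha hn hr y h hc hp F Ω _ P B hB
    have d : ∀ x, HasDerivAt (fun x => sin (2 * π * x)) (2 * π * cos (2 * π * x)) x := by
      intro x
      have h1 : HasDerivAt (fun x : ℝ => 2 * π * x) (2 * π) x := by
        simpa using (hasDerivAt_id x).const_mul (2 * π)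
      have h2 := h1.sin
      refine h2.congr_deriv ?_
      ring
    have p : Function.Periodic (fun x => sin (2 * π * x)) 1 := by
      intro x
      show sin (2 * π * (x + 1)) = _
      rw [mul_add, mul_one, sin_add_two_pi]
    have key := part3 _ _ d (by fun_prop) p TH705.SM.sin_int (1 / 2) (by norm_num)
      TH705.SM.sin_sq_int a n ha hn hr y h hc hp F Ω _ P B hB
    refine key.congr fun j => ?_
    apply intervalIntegral.integral_congr
    intro x _
    simp only
    congr 3
    funext m
    have ha0 : a j ≠ 0 := by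
      intro h0
      have := ha j
      rw [h0] at this
      norm_num at this
    rw [momentum_eq, mul_div_mul_left _ _ ha0]
    simp_rw [position_eq]
    congr 2
    ring

end Pool.Agent.Results.MP_9ee088_an.BrownianMomentum
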