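import Pool.Agent.U467.SM.Fixed

/-!
# Periodic orbits of the standard map which pass the critical strip once are saddles, for almost all parameters

Let `S_a (x, y) = (2x - y + a sin 2πx, x)` on the torus and call `L(x, y) = 2 + 2 π a cos 2πx`, the trace of the derivative of
`S_a` at `(x, y)`, the multiplier at the point. It is small only in the critical strip near the lines `x = ± 1/4`. If `S_a` is
ergodic and hyperbolic (the conjecture of Sinai) then it can have no elliptic islands. Here: for all parameters `a` of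
`[N, N + 1]` outside a set of measure at most `432000 / N`, ALL periodic orbits of ALL periods `n` with at most one multiplier
smaller than `l` in absolute value are hyperbolic saddles, and `|trace D(S_a^n)| > 2 (l / 10)^(n - 1)`; `l ≥ 100` is arbitrary
with `l^2 (1 + log N) ≤ N`. For `l = 100` the strip has area `O(1 / a)`. The order `1 / N` is best possible: a subset of `[N, N + 1]`
of measure at least `1 / (10 N)` consists of parameters with an elliptic fixed point. So the set of the exceptional parameters
up to `R` has measure of the exact order `log R`.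

Proof (own). Fix the itinerary of the orbit: the integers `m_k` with `a sin 2πx_k = m_k + x_(k+1) + x_(k-1) - 2 x_k` and the
branches of the sine. For two parameters with such orbits of the same itinerary the differences `x'_k - x_k` solve a linear
second order boundary value problem with coefficients `≥ l - 1` outside the pass (mean values of the multipliers). The maximum
principle, the formula `trace = P (L_0 - e)` (`P` the continuant of the other multipliers, `e` the sum of two continued
fractions) and the convexity of the sine at the pass give `|a' - a| ≤ 12000 u^2 / N`, where `u` is the product of the numbers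
`(l / 10) / (λ(m_k) - 2)` and `λ(m)` is the smallest possible multiplier with the integer `m`. The sum of `u^2` over all
itineraries of all periods is finite.
-/

set_option autoImplicit false

namespace Pool.Agent.Results.MP_9ee088_an.OnePassOrbits

open Real MeasureTheory

/-- the lift of the standard map `S_a` to the plane -/
noncomputable def lift (a : ℝ) (p : ℝ × ℝ) : ℝ × ℝ := (2 * p.1 - p.2 + a * sin (2 * π * p.1), p.1)

/-- the multiplier: the trace of the derivative of `S_a` at `p` -/
noncomputable def multiplier (a : ℝ) (p : ℝ × ℝ) : ℝ := 2 + 2 * π * a * cos (2 * π * p.1)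

/-- the class of `p` in `ℝ² / ℤ²` is fixed by the `n`-th iterate of `S_a` -/
def Fixes (a : ℝ) (n : ℕ) (p : ℝ × ℝ) : Prop := ∃ i j : ℤ, (lift a)^[n] p = (p.1 + i, p.2 + j)

/-- the trace of the derivative of the `n`-th iterate at `p` (the determinant is `1`; so the periodic orbit is a hyperbolic
saddle if and only if this number is larger than `2` in absolute value) -/
noncomputable def traceD (a : ℝ) (n : ℕ) (p : ℝ × ℝ) : ℝ :=
  LinearMap.trace ℝ (ℝ × ℝ) (fderiv ℝ (lift a)^[n] p : (ℝ × ℝ) →ₗ[ℝ] (ℝ × ℝ))

/-- the number of the points `p, …, S_a^(n-1) p` with multiplier smaller than `l` in absolute value -/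
noncomputable def passes (l a : ℝ) (n : ℕ) (p : ℝ × ℝ) : ℕ :=
  ((Finset.range n).filter (fun k => |multiplier a ((lift a)^[k] p)| < l)).card

/-- some periodic orbit of `S_a` with at most one small multiplier violates `|trace| > 2 (l / 10)^(n - 1)` -/
def Exceptional (l a : ℝ) : Prop :=
  ∃ n : ℕ, 1 ≤ n ∧ ∃ p, Fixes a n p ∧ passes l a n p ≤ 1 ∧ |traceD a n p| ≤ 2 * (l / 10) ^ (n - 1)

/-- `S_a` has an elliptic fixed point -/
def EllipticFixedPoint (a : ℝ) : Prop := ∃ p, Fixes a 1 p ∧ |traceD a 1 p| < 2

theorem exceptional_of_elliptic {l a : ℝ} (h : EllipticFixedPoint a) : Exceptional l a := by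
  obtain ⟨p, h1, h2⟩ := h
  refine ⟨1, le_rfl, p, h1, ?_, ?_⟩
  · exact (Finset.card_filter_le _ _).trans (by simp)
  · simpa using h2.le

theorem upper {N : ℕ} {l : ℝ} (hl : 100 ≤ l) (hlN : l ^ 2 * (1 + log N) ≤ N) :
    volume {a : ℝ | (N : ℝ) ≤ a ∧ a ≤ N + 1 ∧ Exceptional l a} ≤ ENNReal.ofReal (432000 / N) := by
  refine le_trans (measure_mono ?_) (U467.SM.vol_all hl hlN)
  rintro a ⟨h1, h2, n, hn, p, h3, h4, h5⟩
  rw [Set.mem_iUnion]
  refine ⟨n - 1, h1, h2, ?_⟩
  rw [Nat.sub_add_cancel hn]
  exact U467.SM.exists_orb' hn h3 h4 h5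

theorem lower {N : ℕ} (hN : 1 ≤ N) {a : ℝ} (h1 : (N : ℝ) < a) (h2 : a < N + 1 / (10 * N)) :
    EllipticFixedPoint a := U467.SM.elliptic_fixed hN h1 h2

theorem cond {N : ℕ} (hN : 200000 ≤ N) : (100:ℝ) ^ 2 * (1 + log N) ≤ N := by
  have hN' : (200000:ℝ) ≤ N := by exact_mod_cast hN
  have h1 : log ((N:ℝ) / 200000) ≤ (N:ℝ) / 200000 - 1 := log_le_sub_one_of_pos (by positivity)
  rw [log_div (by positivity) (by norm_num)] at h1
  have h2 : log (200000:ℝ) ≤ 18 * log 2 := by
    rw [show (18:ℝ) * log 2 = log (2 ^ 18) by rw [log_pow]; norm_num]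
    exact log_le_log (by norm_num) (by norm_num)
  have h3 := log_two_lt_d9
  linarith

/-- **Saddles for almost all parameters.** (1) For `100 ≤ l`, `l^2 (1 + log N) ≤ N` the exceptional parameters in `[N, N + 1]`
form a set of measure at most `432000 / N`: for all other `a` of this interval all periodic orbits of `S_a`, of any period `n`,
with at most one multiplier smaller than `l` in absolute value satisfy `|trace D(S_a^n)| > 2 (l / 10)^(n - 1)`. (2) The set of
the parameters in `[N, N + 1]` with an elliptic fixed point (all of them are exceptional for every `l`) has measure at least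
`1 / (10 N)`. (3) For `l = 100` the measure of the exceptional parameters in `[200000, R]` is between `log (R / 200000) / 10`
and `432000 (1 + log R)`. -/
theorem result :
    (∀ (N : ℕ) (l : ℝ), 100 ≤ l → l ^ 2 * (1 + log N) ≤ N →
      volume {a : ℝ | (N : ℝ) ≤ a ∧ a ≤ N + 1 ∧ Exceptional l a} ≤ ENNReal.ofReal (432000 / N)) ∧
    (∀ N : ℕ, 1 ≤ N → ENNReal.ofReal (1 / (10 * N)) ≤
      volume {a : ℝ | (N : ℝ) ≤ a ∧ a ≤ N + 1 ∧ EllipticFixedPoint a}) ∧
    (∀ l a : ℝ, EllipticFixedPoint a → Exceptional l a) ∧
    ∀ R : ℕ, 200000 ≤ R →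
      ENNReal.ofReal (log (R / 200000) / 10) ≤
        volume {a : ℝ | 200000 ≤ a ∧ a ≤ R ∧ Exceptional 100 a} ∧
      volume {a : ℝ | 200000 ≤ a ∧ a ≤ R ∧ Exceptional 100 a} ≤
        ENNReal.ofReal (432000 * (1 + log R)) := by
  refine ⟨fun N l hl hlN => upper hl hlN, fun N hN => U467.SM.vol_lower hN,
    fun l a h => exceptional_of_elliptic h, fun R hR => ⟨?_, ?_⟩⟩
  · -- lower bound
    have hR' : (200000:ℝ) ≤ R := by exact_mod_cast hR
    have hsub : (⋃ N ∈ Finset.Ico 200000 R, Set.Ioo (N : ℝ) (N + 1 / (10 * N))) ⊆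
        {a : ℝ | 200000 ≤ a ∧ a ≤ R ∧ Exceptional 100 a} := by
      intro a ha
      rw [Set.mem_iUnion₂] at ha
      obtain ⟨N, hN, h1, h2⟩ := ha
      rw [Finset.mem_Ico] at hN
      have hN1 : (200000:ℝ) ≤ N := by exact_mod_cast hN.1
      have hN2 : (N:ℝ) + 1 ≤ R := by exact_mod_cast hN.2
      have h3 : 1 / (10 * (N:ℝ)) ≤ 1 := by
        rw [div_le_one (by positivity)]; linarith
      exact ⟨by linarith, by linarith, exceptional_of_elliptic (lower (by omega) h1 h2)⟩
    refine le_trans ?_ (measure_mono hsub)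
    have hsep : ∀ M N : ℕ, 200000 ≤ M → 200000 ≤ N → M < N →
        Disjoint (Set.Ioo (M : ℝ) (M + 1 / (10 * M))) (Set.Ioo (N : ℝ) (N + 1 / (10 * N))) := by
      intro M N hM hN hMN
      rw [Set.disjoint_left]
      rintro a ⟨_, h1⟩ ⟨h2, _⟩
      have hM1 : (200000:ℝ) ≤ M := by exact_mod_cast hM
      have h3 : 1 / (10 * (M:ℝ)) ≤ 1 := by
        rw [div_le_one (by positivity)]; linarith
      have h4 : (M:ℝ) + 1 ≤ N := by exact_mod_cast hMN
      linarith
    rw [measure_biUnion_finset]
    · have e : ∀ N ∈ Finset.Ico 200000 R, volume (Set.Ioo (N : ℝ) (N + 1 / (10 * N))) =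
          ENNReal.ofReal (1 / (10 * N)) := by
        intro N _
        rw [Real.volume_Ioo]; congr 1; ring
      rw [Finset.sum_congr rfl e, ← ENNReal.ofReal_sum_of_nonneg (fun N _ => by positivity)]
      apply ENNReal.ofReal_le_ofReal
      have key : ∀ R : ℕ, 200000 ≤ R →
          log (R / 200000) / 10 ≤ ∑ N ∈ Finset.Ico 200000 R, 1 / (10 * (N:ℝ)) := by
        intro R hR
        induction R, hR using Nat.le_induction with
        | base => norm_num
        | succ R hR ih =>
          rw [Finset.sum_Ico_succ_top hR]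
          have hR0 : (200000:ℝ) ≤ R := by exact_mod_cast hR
          have hR1 : (0:ℝ) < R := by linarith
          have h1 : log (((R + 1 : ℕ) : ℝ) / R) ≤ ((R + 1 : ℕ) : ℝ) / R - 1 :=
            log_le_sub_one_of_pos (by positivity)
          have h2 : ((R + 1 : ℕ) : ℝ) / R - 1 = 1 / R := by push_cast; field_simp; ring
          rw [log_div (by positivity) (by positivity)] at h1 ih ⊢
          have h3 : 1 / (10 * (R:ℝ)) = 1 / R / 10 := by field_simp
          rw [h3]
          linarith
      exact key R hR
    · intro M hM N hN hMN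
      rw [Finset.mem_coe, Finset.mem_Ico] at hM hN
      rcases lt_or_gt_of_ne hMN with h | h
      · exact hsep M N hM.1 hN.1 h
      · exact (hsep N M hN.1 hM.1 h).symm
    · intro N _
      exact measurableSet_Ioo
  · -- upper bound
    have hsub : {a : ℝ | 200000 ≤ a ∧ a ≤ R ∧ Exceptional 100 a} ⊆
        ⋃ N ∈ Finset.Icc 200000 R, {a : ℝ | (N : ℝ) ≤ a ∧ a ≤ N + 1 ∧ Exceptional 100 a} := by
      rintro a ⟨h1, h2, h3⟩
      rw [Set.mem_iUnion₂]
      have ha0 : 0 ≤ a := by linarith
      refine ⟨⌊a⌋₊, ?_, Nat.floor_le ha0, (Nat.lt_floor_add_one a).le, h3⟩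
      rw [Finset.mem_Icc]
      constructor
      · apply Nat.le_floor; exact_mod_cast h1
      · have := (Nat.floor_le ha0).trans h2
        exact_mod_cast this
    calc volume {a : ℝ | 200000 ≤ a ∧ a ≤ R ∧ Exceptional 100 a}
        ≤ volume (⋃ N ∈ Finset.Icc 200000 R,
            {a : ℝ | (N : ℝ) ≤ a ∧ a ≤ N + 1 ∧ Exceptional 100 a}) := measure_mono hsub
      _ ≤ ∑ N ∈ Finset.Icc 200000 R,
            volume {a : ℝ | (N : ℝ) ≤ a ∧ a ≤ N + 1 ∧ Exceptional 100 a} :=
          measure_biUnion_finset_le _ _
      _ ≤ ∑ N ∈ Finset.Icc 200000 R, ENNReal.ofReal (432000 / N) := by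
          apply Finset.sum_le_sum
          intro N hN
          rw [Finset.mem_Icc] at hN
          exact upper le_rfl (cond hN.1)
      _ = ENNReal.ofReal (∑ N ∈ Finset.Icc 200000 R, 432000 / (N:ℝ)) := by
          rw [ENNReal.ofReal_sum_of_nonneg (fun N _ => by positivity)]
      _ ≤ _ := by
          apply ENNReal.ofReal_le_ofReal
          have h1 : ∑ N ∈ Finset.Icc 200000 R, 432000 / (N:ℝ) ≤
              ∑ N ∈ Finset.Icc 1 R, 432000 / (N:ℝ) :=
            Finset.sum_le_sum_of_subset_of_nonneg
              (Finset.Icc_subset_Icc (by norm_num) le_rfl) (fun N _ _ => by positivity)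
          have h2 : ∑ N ∈ Finset.Icc 1 R, 432000 / (N:ℝ) = 432000 * (harmonic R : ℝ) := by
            rw [harmonic_eq_sum_Icc, Rat.cast_sum, Finset.mul_sum]
            apply Finset.sum_congr rfl
            intro N _
            push_cast
            rw [div_eq_mul_inv]
          have h3 := harmonic_le_one_add_log R
          rw [h2] at h1
          linarith

end Pool.Agent.Results.MP_9ee088_an.OnePassOrbits
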