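import Mathlib
import Pool.Agent.U785.ST.Fin1

set_option autoImplicit false

/-!
# Mixing and expansion of the standard map up to times `|a| ^ (2 - ε)`, for every large parameter

`S_a (x, y) = (2x - y + a sin 2πx, x)` on the torus, `|a| ≥ 1`; no parameter is excluded.  Sinai's
conjecture asks for two properties of `S_a`, ergodicity and hyperbolicity (almost every point has a
positive Lyapunov exponent), for a large set of parameters.  Here is the version at finite times of
the two properties, for all large parameters, up to times of order `|a|² / (log |a|)²`: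

1. Decorrelation: for observables `f, g` of class `C¹` with `|f|, |g| ≤ 1` and derivatives bounded by
   `K` and `M`, `∫ f · g ∘ S_a^(n+1)` differs from `∫ f ∫ g` by at most
   `C (1 + M) (1 + log |a|) δ + 2 K (4 √δ / 3) ^ n`, `δ = |a|^(-1/2) + √n / |a|`.
2. Expansion: outside a set of area `C (n (1 + log |a|) / |a|² + |a|^(-η/2))` the derivative of
   `S_a^n` has norm at least `|a|^((1-η) n)`.
3. The limit form of (1): for measurable sets `A, B`, parameters `a_j → ∞` and times `n_j ≥ 2` with
   `√n_j (1 + log |a_j|) / |a_j| → 0`, the area of `A ∩ S_{a_j}^(-n_j) B` tends to the product of the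
   areas.

A typical orbit meets, within time `|a|`, the strips `|cos 2πx| ≤ C / |a|` in which `S_a` does not
expand, so the results at finite times in the other files about this problem stop at times `n` much
smaller than `|a|`.  The idea is to ask for a lower bound of the product of the expansions at two
consecutive times only: this fails with probability `(log |a|) / |a|²`, not `1 / |a|`, per time.
(`S_a` has, for some large parameters, elliptic islands whose area is of the order `1 / |a|²`, so the
time `|a|²` is a natural limit of statements for all parameters.)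
-/

open Real MeasureTheory Filter Topology

namespace Pool.Agent.Results.MP_9ee088_an.QuadraticTimes

/-- The torus `ℝ² / ℤ²`, with its Lebesgue measure `volume`. -/
abbrev Torus := UnitAddCircle × UnitAddCircle

/-- `T` is the standard map `S_a` of the torus. -/
def IsStandardMap (a : ℝ) (T : Torus → Torus) : Prop :=
  ∀ x y : ℝ, T ((x : UnitAddCircle), (y : UnitAddCircle)) =
    (((2 * x - y + a * sin (2 * π * x) : ℝ) : UnitAddCircle), (x : UnitAddCircle))

/-- The lift `(x, y) ↦ (2 x - y + a sin 2 π x, x)` of `S_a` to the plane. -/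
noncomputable def planeMap (a : ℝ) (p : ℝ × ℝ) : ℝ × ℝ :=
  (2 * p.1 - p.2 + a * sin (2 * π * p.1), p.1)

/-- Continuously differentiable observables `f` on the torus with `|f| ≤ 1` and with the norm of the
derivative of the lift to the plane at most `K`. -/
structure Observable (f : Torus → ℝ) (K : ℝ) : Prop where
  smooth : ContDiff ℝ 1 (fun p : ℝ × ℝ => f ((p.1 : UnitAddCircle), (p.2 : UnitAddCircle)))
  bound : ∀ p, |f p| ≤ 1
  derivative : ∀ p : ℝ × ℝ,
    ‖fderiv ℝ (fun p : ℝ × ℝ => f ((p.1 : UnitAddCircle), (p.2 : UnitAddCircle))) p‖ ≤ K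

/-- The basic error `|a|^(-1/2) + √n / |a|`. -/
noncomputable def delta (a : ℝ) (n : ℕ) : ℝ := 1 / √|a| + √n / |a|

theorem tobs {f : Torus → ℝ} {K : ℝ} (h : Observable f K) : U785.ST.TObs f K :=
  ⟨h.smooth, h.bound, h.derivative⟩

/-- **Mixing and expansion of the standard map up to times `|a| ^ (2 - ε)`, every parameter.** -/
theorem result :
    (∃ C : ℝ, 0 < C ∧ ∀ (a : ℝ) (T : Torus → Torus), 1 ≤ |a| → IsStandardMap a T →
      -- (1) decorrelation
      (∀ (n : ℕ) (f g : Torus → ℝ) (K M : ℝ), 1 ≤ n → Observable f K → Observable g M →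
        |(∫ p, f p * g (T^[n + 1] p)) - (∫ p, f p) * ∫ p, g p| ≤
          C * (1 + M) * (1 + log |a|) * delta a n + 2 * K * (4 / 3 * √(delta a n)) ^ n) ∧
      -- (2) growth of the derivative
      (∀ (n : ℕ) (η : ℝ), 1 ≤ n → 0 ≤ η → η ≤ 1 →
        volume {p : ℝ × ℝ | p ∈ Set.Ioc (0:ℝ) 1 ×ˢ Set.Ioc (0:ℝ) 1 ∧
          ‖fderiv ℝ ((planeMap a)^[n]) p‖ < |a| ^ ((1 - η) * n)} ≤
        ENNReal.ofReal (C * (n * (1 + log |a|) / |a| ^ 2 + |a| ^ (-η / 2))))) ∧
    -- (3) mixing of sets along parameters and times
    (∀ (a : ℕ → ℝ) (n : ℕ → ℕ) (T : ℕ → Torus → Torus), (∀ j, IsStandardMap (a j) (T j)) →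
      Tendsto (fun j => |a j|) atTop atTop → (∀ j, 2 ≤ n j) →
      Tendsto (fun j => (1 + log |a j|) * (√(n j) / |a j|)) atTop (𝓝 0) →
      ∀ A B : Set Torus, MeasurableSet A → MeasurableSet B →
      Tendsto (fun j => volume.real (A ∩ (T j)^[n j] ⁻¹' B)) atTop
        (𝓝 (volume.real A * volume.real B))) := by
  have hKK := TH705.SM.KK_one
  have hC0 : 100 ≤ U785.ST.C0 := by
    unfold U785.ST.C0
    have : 0 ≤ 656 * TH705.SM.KK * π ^ 2 := by positivity
    linarith
  refine ⟨⟨3 * U785.ST.C0 + 51, by linarith, ?_⟩, ?_⟩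
  · intro a T ha hT
    have hTS : T = TH705.SM.S a := TH705.SM.eq_S a T hT
    have ha0 : 0 < |a| := by linarith
    have hl := log_nonneg ha
    have hs0 : 0 < √|a| := Real.sqrt_pos.2 ha0
    have hd0 : ∀ n : ℕ, 0 ≤ delta a n := fun n => by
      unfold delta
      positivity
    rw [hTS]
    refine ⟨?_, ?_⟩
    · intro n f g K M hn hf hg
      have h := U785.ST.fixed ha (a := fun _ => a) (fun _ => le_rfl) hn (tobs hf) (tobs hg)
      rw [U785.ST.Fs_const] at h
      have hM := (tobs hg).nonneg
      have hd := hd0 n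
      refine h.trans ?_
      have h2 : U785.ST.C0 * (1 + M) * ((1 + log |a|) * (1 / √|a| + √n / |a|)) ≤
          (3 * U785.ST.C0 + 51) * (1 + M) * (1 + log |a|) * delta a n := by
        have e : U785.ST.C0 * (1 + M) * ((1 + log |a|) * (1 / √|a| + √n / |a|)) =
          U785.ST.C0 * (1 + M) * (1 + log |a|) * delta a n := by
          unfold delta
          ring
        rw [e]
        have h3 : U785.ST.C0 ≤ 3 * U785.ST.C0 + 51 := by linarith
        gcongr
      unfold delta at *
      linarith
    · intro n η hn hη0 hη1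
      have h := U785.ST.grow ha (a := fun _ => a) (fun _ => le_rfl) hn hη0 hη1
      refine le_trans (measure_mono ?_) (h.trans (ENNReal.ofReal_le_ofReal ?_))
      · intro p hp
        rw [Set.mem_ofPred_eq] at hp ⊢
        refine ⟨hp.1, (U785.ST.Pm_norm a n p).trans_lt ?_⟩
        refine hp.2.trans_le (le_of_eq ?_)
        have e : |a| * |a| ^ (-η) = |a| ^ (1 - η) := by
          rw [sub_eq_add_neg, Real.rpow_add ha0, Real.rpow_one]
        rw [Finset.prod_const, Finset.card_range, ← mul_pow, e, ← Real.rpow_natCast,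
          ← Real.rpow_mul ha0.le]
      · have h1 : 0 ≤ n * (1 + log |a|) / |a| ^ 2 := by positivity
        have h2 : 0 ≤ |a| ^ (-η / 2) := by positivity
        nlinarith
  · intro a n T hT ha hn hr A B hA hB
    have hTS : ∀ j, T j = TH705.SM.S (a j) := fun j => TH705.SM.eq_S (a j) (T j) (hT j)
    simp only [hTS]
    exact U785.ST.mix_seq ha hn hr hA hB

end Pool.Agent.Results.MP_9ee088_an.QuadraticTimes
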