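import Mathlib
import Pool.Agent.U785.WB.Perim

set_option autoImplicit false

/-!
# Invariant sets of the standard map: perimeter at least `exp (c |a|² / log |a|)`, every parameter

`S_a (x, y) = (2x - y + a sin 2πx, x)` on the torus, `|a| ≥ 1`; no parameter is excluded. Ergodicity
(part of the conjecture of Sinai) says that an invariant set has area `0` or `1`, and it excludes
periodic islands. Here, with an absolute constant `C`:

1. For all times `n ≥ 1` and `0 ≤ h ≤ 1` the neighbourhood of radius `6 |a| ^ (-(1 - h) n)` of the
   boundary of an invariant set whose area lies in `[η, 1 - η]` has area at least `η - err`, where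
   `err = C ((1 + log |a|) (|a|^(-1/2) + √n / |a|) + |a|^(-h/2))`.
2. So the boundary has length at least `(η²|a| / C) ^ (η |a| / (C (1 + log |a|)))²` as soon as
   `η √|a| ≥ C (1 + log |a|)`; for fixed `η` this is `exp (c |a|² / log |a|)`.
3. The same holds for the perimeter of every measurable set `A` which is invariant up to a null set
   (this does not see the topological boundary, which is not determined up to null sets): if the
   symmetric differences of `A` and its translates by `b` in the two coordinate directions have area
   at most `L |b|`, then `L` is at least the number in 2.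
4. Outside a set of area `2 err`, no point is further than `6 |a| ^ (-(1 - h) n)` inside a periodic
   island, of any period and any topology.

Since `err` is small as long as `n` is much smaller than `|a|² / (log |a|)²`, the scale can be taken
as small as `exp (-c |a|² / log |a|)`. (The files LongBoundaries and ThinIslands about this problem
have the errors `3 n / |a| + 4 / √|a|` and the scale `|a| ^ (-n / 4)`, so they stop at times `|a|`, the
time in which a typical orbit meets the region in which the map does not expand; and they only treat
the topological boundary.)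

Ideas. The image under `S_a ^ n` of a very short horizontal segment starting at a typical point
contains a curve which goes around the torus. The segment may be cut only where the product of the
expansions at two consecutive times is small; for a smooth cutoff the density of such cuts, and of
the places of large distortion, is an explicit function of small integral, and the covering argument
for its maximal function shows that most segments are not cut before they go around. For 3: if `A`
has small perimeter then most such horizontal segments are in `A`, and most vertical segments around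
points of the complement are in the complement, up to null sets; on a curve `γ` of the first family
the points on curves of the second family form a null set, but the map `S_a ^ (n + m)` sends them to
points with a set of first coordinates of positive measure, although it is smooth on `γ`.
-/

open Real MeasureTheory
open scoped ENNReal

namespace Pool.Agent.Results.MP_9ee088_an.WildBoundaries

/-- The torus `ℝ² / ℤ²`, with its Lebesgue measure `volume` and the sup distance. -/
abbrev Torus := UnitAddCircle × UnitAddCircle

/-- `T` is the standard map `S_a` of the torus. -/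
def IsStandardMap (a : ℝ) (T : Torus → Torus) : Prop :=
  ∀ x y : ℝ, T ((x : UnitAddCircle), (y : UnitAddCircle)) =
    (((2 * x - y + a * sin (2 * π * x) : ℝ) : UnitAddCircle), (x : UnitAddCircle))

/-- The area of the invariant set `A`, and of its complement, is at least `η`. -/
structure InvariantBetween (T : Torus → Torus) (η : ℝ) (A : Set Torus) : Prop where
  invariant : T ⁻¹' A = A
  area : ENNReal.ofReal η ≤ volume A
  areaCompl : ENNReal.ofReal η ≤ volume Aᶜ

/-- `L` bounds the variation of the indicator function of `A` in the two coordinate directions: the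
area of the symmetric difference of `A` and its translate by `b` is at most `L |b|`. A set of finite
perimeter `P` has this property with `L = P`. -/
structure VariationLE (A : Set Torus) (L : ℝ) : Prop where
  horizontal : ∀ b : ℝ, volume (symmDiff
    ((fun p : Torus => ((p.1 + (b : UnitAddCircle), p.2) : Torus)) ⁻¹' A) A) ≤
      ENNReal.ofReal (L * |b|)
  vertical : ∀ b : ℝ, volume (symmDiff
    ((fun p : Torus => ((p.1, p.2 + (b : UnitAddCircle)) : Torus)) ⁻¹' A) A) ≤
      ENNReal.ofReal (L * |b|)

/-- The covering map from the plane to the torus. -/
noncomputable def proj (p : ℝ × ℝ) : Torus := ((p.1 : UnitAddCircle), (p.2 : UnitAddCircle))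

/-- `D` is a returning domain: an open connected (possibly empty) set such that every `T^k(D)` is
equal to `D` or disjoint from `D`. -/
structure Returning (T : Torus → Torus) (D : Set Torus) : Prop where
  isOpen : IsOpen D
  isPreconnected : IsPreconnected D
  returns : ∀ k : ℕ, T^[k] '' D = D ∨ Disjoint (T^[k] '' D) D

/-- `D` is an island: a returning domain whose full preimage in the plane is not connected. For
instance a periodic disc, or a periodic essential annulus. -/
structure Island (T : Torus → Torus) (D : Set Torus) : Prop where
  returning : Returning T D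
  lift : ¬ IsConnected (proj ⁻¹' D)

/-- The error `C ((1 + log |a|) (|a|^(-1/2) + √n / |a|) + |a|^(-h/2))`. -/
noncomputable def err (C a h : ℝ) (n : ℕ) : ℝ :=
  C * ((1 + log |a|) * (1 / √|a| + √n / |a|) + |a| ^ (-h / 2))

/-- The scale `6 |a| ^ (-(1 - h) n)`. -/
noncomputable def scale (a h : ℝ) (n : ℕ) : ℝ := 6 * |a| ^ (-(1 - h) * n)

/-- The lower bound `(η²|a| / C) ^ (η |a| / (C (1 + log |a|)))²` of the length of boundaries. -/
noncomputable def long (C a η : ℝ) : ℝ :=
  (η ^ 2 * |a| / C) ^ ((η * |a| / (C * (1 + log |a|))) ^ 2)

/-- **Invariant sets of the standard map have perimeter at least `exp (c |a|² / log |a|)`, for every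
parameter.** -/
theorem result : ∃ C : ℝ, 0 < C ∧ ∀ (a : ℝ) (T : Torus → Torus), 1 ≤ |a| → IsStandardMap a T →
    -- (1) the neighbourhood of the boundary of an invariant set
    (∀ (η : ℝ) (A : Set Torus), InvariantBetween T η A → ∀ (n : ℕ) (h : ℝ), 1 ≤ n → 0 ≤ h → h ≤ 1 →
      ENNReal.ofReal η ≤ ENNReal.ofReal (err C a h n) +
        volume (Metric.cthickening (scale a h n) (frontier A))) ∧
    -- (2) the length of the boundary of an invariant set
    (∀ (η : ℝ) (A : Set Torus), InvariantBetween T η A → C * (1 + log |a|) ≤ η * √|a| →
      ENNReal.ofReal (long C a η) ≤ Measure.hausdorffMeasure 1 (frontier A)) ∧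
    -- (3) the perimeter of a measurable invariant set
    (∀ (η : ℝ) (A : Set Torus) (L : ℝ), MeasurableSet A → volume (symmDiff (T ⁻¹' A) A) = 0 →
      ENNReal.ofReal η ≤ volume A → ENNReal.ofReal η ≤ volume Aᶜ →
      C * (1 + log |a|) ≤ η * √|a| → VariationLE A L → long C a η ≤ L) ∧
    -- (4) returning domains and islands
    (∀ (n : ℕ) (h : ℝ), 1 ≤ n → 0 ≤ h → h ≤ 1 →
      (∃ B : Set Torus, MeasurableSet B ∧ volume B ≤ ENNReal.ofReal (2 * err C a h n) ∧
        ∀ D, Returning T D → ∀ p, p ∉ B → Metric.closedBall p (scale a h n) ⊆ D →
          T ⁻¹' D = D ∧ IsConnected (proj ⁻¹' D)) ∧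
      volume {p | ∃ D, Island T D ∧ Metric.closedBall p (scale a h n) ⊆ D} ≤
        ENNReal.ofReal (2 * err C a h n)) := by
  have hC1 := U785.WB.C1_ge
  set C : ℝ := 64 * U785.WB.C1 ^ 2 with hC
  have hCC : U785.WB.C1 ≤ C := by
    rw [hC]
    nlinarith
  have hC0 : 0 < C := by linarith
  refine ⟨C, hC0, ?_⟩
  intro a T ha hT
  have hTS : T = TH705.SM.S a := TH705.SM.eq_S a T hT
  have ha0 : 0 < |a| := by linarith
  have hl := log_nonneg ha
  have hsc : ∀ (h : ℝ) (n : ℕ), 0 < scale a h n := fun h n => by
    unfold scale
    positivity
  -- the exceptional sets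
  have key : ∀ (n : ℕ) (h : ℝ), 1 ≤ n → 0 ≤ h → h ≤ 1 → ∃ K : Set Torus, MeasurableSet K ∧
      U785.WB.BadSet a n (scale a h n) K ∧ volume K ≤ ENNReal.ofReal (err C a h n) := by
    intro n h hn hh0 hh1
    obtain ⟨K, hKc, hK, hKv⟩ := U785.WB.exists_bad ha hn hh0 hh1
    refine ⟨K, hKc.measurableSet, hK, hKv.trans (ENNReal.ofReal_le_ofReal ?_)⟩
    unfold err
    apply mul_le_mul_of_nonneg_right hCC
    positivity
  rw [hTS]
  refine ⟨?_, ?_, ?_, ?_⟩
  · intro η A hA n h hn hh0 hh1
    obtain ⟨K, _, hK, hKv⟩ := key n h hn hh0 hh1
    exact (U785.WB.alt_thick hK (hsc h n).le hA.invariant hA.area hA.areaCompl).trans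
      (add_le_add_left hKv _)
  · intro η A hA hη
    exact U785.WB.length ha hA.invariant hA.area hA.areaCompl hη
  · intro η A L hAm hA h1 h2 hη hL
    exact U785.WB.perimeter ha hAm hA h1 h2 hη hL.horizontal hL.vertical
  · intro n h hn hh0 hh1
    have hmain : ∃ B : Set Torus, MeasurableSet B ∧
        volume B ≤ ENNReal.ofReal (2 * err C a h n) ∧
        ∀ D, Returning (TH705.SM.S a) D → ∀ p, p ∉ B →
          Metric.closedBall p (scale a h n) ⊆ D →
          TH705.SM.S a ⁻¹' D = D ∧ IsConnected (proj ⁻¹' D) := by
      obtain ⟨K, hKm, hK, hKv⟩ := key n h hn hh0 hh1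
      have herr : 0 ≤ err C a h n := by
        unfold err
        positivity
      by_cases ha' : 256 ≤ |a|
      · refine ⟨K ∪ Prod.swap ⁻¹' K, hKm.union (hKm.preimage measurable_swap), ?_, ?_⟩
        · refine (measure_union_le _ _).trans ?_
          rw [Y332.SM.vol_swap, two_mul, ENNReal.ofReal_add herr herr]
          exact add_le_add hKv hKv
        · intro D hD p hp hpD
          exact U785.WB.returning ha' hK (hsc h n).le hD.isOpen hD.isPreconnected hD.returns hpD
            (fun h => hp (Or.inl h)) (fun h => hp (Or.inr h))
      · refine ⟨Set.univ, MeasurableSet.univ, ?_, fun D _ p hp => absurd (Set.mem_univ p) hp⟩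
        rw [measure_univ, ENNReal.one_le_ofReal]
        rw [not_le] at ha'
        have hs : √|a| ≤ 16 := by
          rw [Real.sqrt_le_left (by norm_num)]
          linarith
        have hs0 : 0 < √|a| := Real.sqrt_pos.2 ha0
        have h1 : 1 / 16 ≤ 1 / √|a| := one_div_le_one_div_of_le hs0 hs
        have h2 : 0 ≤ √n / |a| := by positivity
        have h3 : 0 ≤ |a| ^ (-h / 2) := by positivity
        have h4 : 1 / 16 ≤ (1 + log |a|) * (1 / √|a| + √n / |a|) := by nlinarith
        unfold err
        nlinarith
    refine ⟨hmain, ?_⟩
    obtain ⟨B, _, hBv, hB⟩ := hmain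
    refine (measure_mono ?_).trans hBv
    rintro p ⟨D, hD, hpD⟩
    by_contra hp
    exact hD.lift (hB D hD.returning p hp hpD).2

end Pool.Agent.Results.MP_9ee088_an.WildBoundaries
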